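import Pool.Agent.CvS.Good
import Pool.Agent.CvE.Defs

/-!
# Relations with finite fibres over the line

`line_hyp`: `CvE.LineHyp` follows from the plane hypothesis by the averaging part of the step (`CvS.good_dc`). The
relation `P (x, t; a)`, `t : κ → k`, is a relation on `Fin (n + 2)` with `κ ≃ Fin n` and a last coordinate equal to
`0`.
-/

set_option autoImplicit false

noncomputable section

namespace Pool.Agent.CvH

open Pool.Agent.PRc Pool.Agent.Grz Pool.Agent.CvS Pool.Agent.CvE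

variable {κ ι : Type} {n : ℕ}

/-- the relation on `Fin (n + 2)` -/
private def X_LineH (e : κ ≃ Fin n) (P : FR ((Unit ⊕ κ) ⊕ ι)) : FR (Fin (n + 1 + 1) ⊕ ι) :=
  fun k _ w => P k (pt (w (Sum.inl 0)) (fun j => w (Sum.inl (e j).castSucc.succ))
    fun i => w (Sum.inr i)) ∧ w (Sum.inl (Fin.last n).succ) = 0

private theorem X_pr_LineH (e : κ ≃ Fin n) {P : FR ((Unit ⊕ κ) ⊕ ι)} (hP : PRD P) :
    PRD (X_LineH e P) := by
  refine (hP.comp (G := fun j => fun k _ w => pt (w (Sum.inl 0))
    (fun j => w (Sum.inl (e j).castSucc.succ)) (fun i => w (Sum.inr i)) j) ?_).and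
    (PRD.eq (PRF.var _) PRF.zero)
  rintro ((⟨⟩ | j) | i)
  · exact PRF.var _
  · exact PRF.var _
  · exact PRF.var _

/-- the relation with the first coordinate among the parameters -/
private def Q_LineH (e : κ ≃ Fin n) (P : FR ((Unit ⊕ κ) ⊕ ι)) : FR ((Unit ⊕ ι) ⊕ Fin n) :=
  fun k _ w => P k (pt (w (Sum.inl (Sum.inl ()))) (fun j => w (Sum.inr (e j)))
    fun i => w (Sum.inl (Sum.inr i)))

private theorem Q_pr_LineH (e : κ ≃ Fin n) {P : FR ((Unit ⊕ κ) ⊕ ι)} (hP : PRD P) :
    PRD (Q_LineH e P) := by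
  refine hP.comp (G := fun j => fun k _ w => pt (w (Sum.inl (Sum.inl ())))
    (fun j => w (Sum.inr (e j))) (fun i => w (Sum.inl (Sum.inr i))) j) ?_
  rintro ((⟨⟩ | j) | i)
  · exact PRF.var _
  · exact PRF.var _
  · exact PRF.var _

/-- the bound of the fibres -/
private theorem nf_le_LineH (e : κ ≃ Fin n) {P : FR ((Unit ⊕ κ) ⊕ ι)} (hP : PRD P) :
    ∃ B : ℕ, ∀ (p : ℕ) [Fact p.Prime] (a : ι → ℕ), FibFin P p a → ∀ x, nf P p a x ≤ B := by
  obtain ⟨B, Q, -, h⟩ := fib_unif (Q_pr_LineH e hP)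
  refine ⟨B, fun p _ a hF x => ?_⟩
  set K := AlgebraicClosure (ZMod p) with hK
  set φ : ZMod p →+* K := algebraMap (ZMod p) K with hφ
  obtain ⟨h1, h2⟩ := h (ZMod p) K φ (Sum.elim (fun _ => x) fun i => (a i : ZMod p))
  have hS : {t : Fin n → K | Q_LineH e P K (Sum.elim
      (fun i => φ ((Sum.elim (fun _ => x) fun i => (a i : ZMod p)) i)) t)} =
      (fun t : κ → K => fun i => t (e.symm i)) '' {t : κ → K |
        P K (pt (φ x) t fun i => (a i : K))} := by
    ext t
    simp only [Set.mem_setOf_eq, Set.mem_image, Q_LineH, Sum.elim_inl, Sum.elim_inr, map_natCast]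
    constructor
    · intro ht
      exact ⟨fun j => t (e j), ht, by funext i; simp⟩
    · rintro ⟨s, hs, rfl⟩
      simpa using hs
  have hfin : {t : Fin n → K | Q_LineH e P K (Sum.elim
      (fun i => φ ((Sum.elim (fun _ => x) fun i => (a i : ZMod p)) i)) t)}.Finite := by
    rw [hS]
    exact (hF (φ x)).image _
  have h3 := h2 (fun hq => (h1.1 hq) hfin)
  refine le_trans ?_ h3
  have : Finite {t : Fin n → K // t ∈ {t : Fin n → K | Q_LineH e P K (Sum.elim
      (fun i => φ ((Sum.elim (fun _ => x) fun i => (a i : ZMod p)) i)) t)}} := hfin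
  rw [← Nat.card_coe_set_eq]
  refine Nat.card_le_card_of_injective (fun t => ⟨fun i => φ (t.1 (e.symm i)), ?_⟩) ?_
  · have := (prd_hom hP φ (pt x t.1 fun i => (a i : ZMod p))).2 t.2
    simp only [Set.mem_setOf_eq, Q_LineH, Sum.elim_inl, Sum.elim_inr, map_natCast,
      Equiv.symm_apply_apply]
    convert this using 2
    rename_i j
    rcases j with (⟨⟩ | j) | i
    · rfl
    · rfl
    · simp [pt]
  · intro s t hst
    apply Subtype.ext
    funext j
    have := congrFun (congrArg Subtype.val hst) (e j)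
    simp only [Equiv.symm_apply_apply] at this
    exact φ.injective this

theorem line_hyp (hP : PlaneHyp) : LineHyp := by
  intro κ ι _ _ P hPr
  classical
  obtain ⟨n, ⟨e⟩⟩ := Finite.exists_equiv_fin κ
  obtain ⟨B, hB⟩ := nf_le_LineH e hPr
  refine ⟨gN (X_LineH e P), B, good_dc (by omega) hP (X_pr_LineH e hPr), fun p _ a hF =>
    ⟨hB p a hF, ?_⟩⟩
  rw [gN, dif_pos (Fact.out : p.Prime)]
  set K := AlgebraicClosure (ZMod p) with hK
  refine Nat.card_congr ⟨fun z => ⟨(z.1 0, fun j => z.1 (e j).castSucc.succ), z.2.1.1⟩,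
    fun z => ⟨Fin.cons z.1.1 (Fin.snoc (fun i => z.1.2 (e.symm i)) 0), ⟨⟨?_, ?_⟩, ?_⟩⟩, ?_, ?_⟩
  · have := z.2
    simp only [Sum.elim_inl, Fin.cons_zero, Fin.cons_succ, Fin.snoc_castSucc, Sum.elim_inr,
      Equiv.symm_apply_apply]
    exact this
  · simp
  · refine ((hF (algebraMap (ZMod p) K ((Fin.cons z.1.1 (Fin.snoc (fun i => z.1.2 (e.symm i)) 0) :
      Fin (n + 1 + 1) → ZMod p) 0))).image
      (fun t : κ → K => (Fin.snoc (fun i => t (e.symm i)) 0 : Fin (n + 1) → K))).subset ?_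
    intro t ht
    obtain ⟨h1, h2⟩ : _ ∧ _ := ht
    refine ⟨fun j => t (e j).castSucc, ?_, ?_⟩
    · simp only [Fin.cons_zero, Sum.elim_inl, Fin.cons_succ, Sum.elim_inr, cst] at h1 ⊢
      exact h1
    · funext i
      refine Fin.lastCases ?_ (fun i => ?_) i
      · simpa using h2.symm
      · simp
  · intro z
    apply Subtype.ext
    funext i
    refine Fin.cases ?_ (fun i => ?_) i
    · simp
    · refine Fin.lastCases ?_ (fun i => ?_) i
      · have := z.2.1.2
        simpa using this.symm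
      · simp
  · intro z
    apply Subtype.ext
    apply Prod.ext
    · simp
    · funext j
      simp

end Pool.Agent.CvH
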