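import Pool.Agent.CvH.Curve
import Pool.Agent.CvH.LineH
import Pool.Agent.CvT.PlH
import Pool.Agent.CvS.Sys

/-!
# ALL CURVES: the hypotheses are theorems

`planeHyp`, `ch`, `sys`: numbers of solutions of systems of polynomial congruences with a solution set of dimension at
most one modulo every prime divisor, squarefree modulus, are definable.
-/

set_option autoImplicit false

namespace Pool.Agent.CvH

open Pool.Agent.Grz Pool.Agent.CvS

theorem planeHyp : PlaneHyp := CvT.plane_hyp curveHyp

theorem ch (n : ℕ) : CH n := ch_all planeHyp n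

theorem lineHyp : CvE.LineHyp := line_hyp planeHyp

theorem sys {n d r k : ℕ} {m : (Fin k → ℕ) → ℕ}
    {c : Fin r → (Fin n → Fin (d + 1)) → (Fin k → ℕ) → ℕ} (hm : DFun k m)
    (hc : ∀ l e, DFun k (c l e)) : ∃ f : (Fin k → ℕ) → ℕ, DFun k f ∧ ∀ v, Squarefree (m v) →
      (∀ p, p.Prime → p ∣ m v → Cv p fun l e => c l e v) → f v = SN (m v) fun l e => c l e v :=
  sys_sqf planeHyp hm hc

end Pool.Agent.CvH
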