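import Pool.Agent.CvG.End
import Pool.Agent.CvG.GcH
import Pool.Agent.CvD.Fin

/-!
# ALL CURVES: the theorem

Numbers of points of plane curves have bounded formula graphs.
-/

set_option autoImplicit false

namespace Pool.Agent.CvH

open Pool.Agent.CvD Pool.Agent.Grz

/-- Numbers of points of absolutely irreducible plane curves modulo large primes are definable. -/
theorem curveHyp : CurveHyp := CvG.curve_hyp CvG.gc_hyp

end Pool.Agent.CvH
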