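import Pool.Agent.CvS.FinU

/-!
# The condition on the dimension is decidable

`dm1_pr`: that any two coordinates are algebraically dependent on the set of the solutions over the algebraic closure
is a Boolean combination of polynomial conditions on the parameters: for `i < j` the set
`W = {(z i, z j)} ⊆ K ^ 2` is constructible (`qe`), and there is a nonzero polynomial vanishing on `W` iff only finitely
many of its fibres over the first coordinate are infinite.
-/

set_option autoImplicit false

noncomputable section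

namespace Pool.Agent.CvH

open Polynomial Pool.Agent.PRc Pool.Agent.Grz Pool.Agent.CvS

variable {ι : Type}

/-- the polynomial in the last two variables -/
private def tq {K : Type} [Field K] (T : MvPolynomial ((ι ⊕ Unit) ⊕ Unit) ℤ) (x : ι → K) :
    K[X][X] :=
  MvPolynomial.aeval (Sum.elim (Sum.elim (fun i => C (C (x i))) fun _ => C X) fun _ => X) T

private theorem tq_eval {K : Type} [Field K] (T : MvPolynomial ((ι ⊕ Unit) ⊕ Unit) ℤ) (x : ι → K)
    (s t : K) : (tq T x).evalEval s t =
      MvPolynomial.aeval (Sum.elim (Sum.elim x fun _ => s) fun _ => t) T := by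
  induction T using MvPolynomial.induction_on with
  | C a =>
    unfold tq
    rw [MvPolynomial.aeval_C, MvPolynomial.aeval_C]
    simp [Polynomial.evalEval]
  | add p q hp hq =>
    have h : tq (p + q) x = tq p x + tq q x := by unfold tq; rw [map_add]
    rw [h, evalEval_add, hp, hq, map_add]
  | mul_X p i hp =>
    have h : tq (p * MvPolynomial.X i) x = tq p x *
        Sum.elim (Sum.elim (fun i => C (C (x i))) fun _ => C X) (fun _ => X) i := by
      unfold tq; rw [map_mul, MvPolynomial.aeval_X]
    rw [h, evalEval_mul, hp, map_mul, MvPolynomial.aeval_X]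
    congr 1
    rcases i with (i | ⟨⟩) | ⟨⟩
    · simp [Polynomial.evalEval]
    · simp [Polynomial.evalEval]
    · simp [Polynomial.evalEval]

/-- points of finite fibres are roots of the polynomials of the pattern -/
private theorem root_DmD {τ : ℕ} {T : Fin τ → MvPolynomial ((ι ⊕ Unit) ⊕ Unit) ℤ}
    {R : (Fin τ → Prop) → Prop} {P : FR ((ι ⊕ Unit) ⊕ Unit)}
    (hR : ∀ (k : Type) [Field k] (x : (ι ⊕ Unit) ⊕ Unit → k),
      P k x ↔ R (fun a => MvPolynomial.aeval x (T a) = 0))
    {K : Type} [Field K] [Infinite K] (x : ι → K) (s t : K)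
    (hfin : {t : K | P K (Sum.elim (Sum.elim x fun _ => s) fun _ => t)}.Finite)
    (ht : P K (Sum.elim (Sum.elim x fun _ => s) fun _ => t)) :
    ∃ a, tq (T a) x ≠ 0 ∧ (tq (T a) x).evalEval s t = 0 := by
  classical
  by_contra hno
  push Not at hno
  -- the polynomials in the last variable
  set y : ι ⊕ Unit → K := Sum.elim x fun _ => s with hy
  have h1 : ∀ (a : Fin τ) (t' : K), (tp (T a) y).eval t' = (tq (T a) x).evalEval s t' := by
    intro a t'
    have := tp_eval (RingHom.id K) (T a) y t'
    rw [Polynomial.map_id] at this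
    rw [this, tq_eval]
    rfl
  have h2 : ∀ a, tp (T a) y ≠ 0 → (tp (T a) y).eval t ≠ 0 := by
    intro a ha h3
    refine hno a (fun h0 => ha ?_) ((h1 a t).symm.trans h3)
    refine Polynomial.funext fun t' => ?_
    rw [h1, h0]
    simp
  -- outside the roots the relation holds
  refine Set.infinite_univ (α := K) ?_
  have h4 : (Set.univ : Set K) ⊆ {t : K | P K (Sum.elim y fun _ => t)} ∪
      ((Finset.univ.biUnion fun a => (tp (T a) y).roots.toFinset : Finset K) : Set K) := by
    intro t' _
    by_cases h5 : ∃ a, tp (T a) y ≠ 0 ∧ (tp (T a) y).eval t' = 0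
    · obtain ⟨a, h6, h7⟩ := h5
      right
      rw [Finset.mem_coe, Finset.mem_biUnion]
      exact ⟨a, Finset.mem_univ a, by
        rw [Multiset.mem_toFinset, mem_roots h6]
        exact h7⟩
    · left
      push Not at h5
      show P K (Sum.elim y fun _ => t')
      rw [hR K]
      rw [hR K] at ht
      convert ht using 1
      funext a
      have e : ∀ t' : K, MvPolynomial.aeval (Sum.elim y fun _ => t') (T a) =
          (tp (T a) y).eval t' := by
        intro t'
        have := tp_eval (RingHom.id K) (T a) y t'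
        rw [Polynomial.map_id] at this
        exact this.symm
      rw [e, e]
      apply propext
      by_cases h6 : tp (T a) y = 0
      · simp [h6]
      · exact ⟨fun h => absurd h (h5 a h6), fun h => absurd h (h2 a h6)⟩
  exact (hfin.union (Finset.finite_toSet _)).subset h4

/-- the relation between two coordinates -/
private theorem two_DmD {P : FR ((ι ⊕ Unit) ⊕ Unit)} (hP : PRD P) : ∃ Q : FR ι, PRD Q ∧
    ∀ (k K : Type) [Field k] [Field K] [IsAlgClosed K] (φ : k →+* K) (x : ι → k),
      (Q k x ↔ ∃ G : K[X][X], G ≠ 0 ∧ ∀ s t : K,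
        P K (Sum.elim (Sum.elim (fun i => φ (x i)) fun _ => s) fun _ => t) →
          G.evalEval s t = 0) := by
  classical
  obtain ⟨Q1, hQ1, h1⟩ := inf_pr hP
  obtain ⟨Q2, hQ2, h2⟩ := inf_pr hQ1
  obtain ⟨τ, T, R, hR⟩ := prd_pat hP
  refine ⟨fun k _ x => ¬ Q2 k x, hQ2.not, fun k K _ _ _ φ x => ?_⟩
  show ¬ Q2 k x ↔ _
  rw [h2 k K φ x, Set.not_infinite]
  have h3 : ∀ s : K, Q1 K (Sum.elim (fun i => φ (x i)) fun _ => s) ↔
      {t : K | P K (Sum.elim (Sum.elim (fun i => φ (x i)) fun _ => s) fun _ => t)}.Infinite :=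
    fun s => h1 K K (RingHom.id K) (Sum.elim (fun i => φ (x i)) fun _ => s)
  constructor
  · intro hU
    set U := hU.toFinset with hUd
    set y : ι → K := fun i => φ (x i) with hy
    refine ⟨(∏ u ∈ U, C (X - C u)) * ∏ a ∈ Finset.univ.filter fun a => tq (T a) y ≠ 0,
      tq (T a) y, ?_, fun s t hst => ?_⟩
    · refine mul_ne_zero (Finset.prod_ne_zero_iff.2 fun u _ => ?_)
        (Finset.prod_ne_zero_iff.2 fun a ha => (Finset.mem_filter.1 ha).2)
      rw [Ne, C_eq_zero]
      exact X_sub_C_ne_zero u
    · rw [evalEval_mul, evalEval_prod, evalEval_prod]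
      by_cases hs : s ∈ U
      · rw [Finset.prod_eq_zero hs, zero_mul]
        simp [Polynomial.evalEval]
      · have h4 : ¬ Q1 K (Sum.elim (fun i => φ (x i)) fun _ => s) := fun h => hs (by
          rw [hUd, Set.Finite.mem_toFinset]
          exact h)
        rw [h3, Set.not_infinite] at h4
        obtain ⟨a, h5, h6⟩ := root_DmD hR y s t h4 hst
        rw [Finset.prod_eq_zero (Finset.mem_filter.2 ⟨Finset.mem_univ a, h5⟩) h6, mul_zero]
  · rintro ⟨G, hG, h⟩
    obtain ⟨n, hn⟩ : ∃ n, G.coeff n ≠ 0 := by
      by_contra hc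
      push Not at hc
      exact hG (Polynomial.ext fun n => by rw [hc n, coeff_zero])
    refine ((G.coeff n).roots.toFinset.finite_toSet).subset fun s hs => ?_
    rw [Finset.mem_coe, Multiset.mem_toFinset, mem_roots hn]
    by_contra hr
    have hs' := (h3 s).1 hs
    have h5 : G.map (evalRingHom s) ≠ 0 := by
      intro h0
      have := congrArg (fun q => q.coeff n) h0
      simp only [coeff_map, coe_evalRingHom, coeff_zero] at this
      exact hr this
    refine hs' (((G.map (evalRingHom s)).roots.toFinset.finite_toSet).subset fun t ht => ?_)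
    rw [Finset.mem_coe, Multiset.mem_toFinset, mem_roots h5, IsRoot.def]
    have h6 := h s t ht
    rwa [← map_evalRingHom_eval] at h6

/-- the condition on the dimension -/
theorem dm1_pr {n : ℕ} {X : FR (Fin n ⊕ ι)} (hX : PRD X) : ∃ Q : FR ι, PRD Q ∧
    ∀ (k K : Type) [Field k] [Field K] [IsAlgClosed K] (φ : k →+* K) (x : ι → k),
      Q k x ↔ Dm1 (Pt X K fun i => φ (x i)) := by
  classical
  have h1 : ∀ i j : Fin n, PRD (ι := ((ι ⊕ Unit) ⊕ Unit) ⊕ Fin n) (fun k _ y =>
      X k (fun l : Fin n ⊕ ι => Sum.elim (fun l => y (Sum.inr l))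
        (fun l => y (Sum.inl (Sum.inl (Sum.inl l)))) l) ∧
      y (Sum.inr i) = y (Sum.inl (Sum.inl (Sum.inr ()))) ∧
      y (Sum.inr j) = y (Sum.inl (Sum.inr ()))) := by
    intro i j
    refine PRD.and (hX.comp (G := fun l : Fin n ⊕ ι => fun (k : Type) [Field k]
      (y : ((ι ⊕ Unit) ⊕ Unit) ⊕ Fin n → k) => Sum.elim (fun l => y (Sum.inr l))
        (fun l => y (Sum.inl (Sum.inl (Sum.inl l)))) l) ?_)
      ((PRD.eq (PRF.var _) (PRF.var _)).and (PRD.eq (PRF.var _) (PRF.var _)))
    rintro (l | l)
    · exact PRF.var _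
    · exact PRF.var _
  choose W hW hw using fun i j => qeN (h1 i j)
  choose Q hQ hq using fun i j => two_DmD (hW i j)
  refine ⟨fun k _ x => ∀ q ∈ (Finset.univ.filter fun q : Fin n × Fin n => q.1 < q.2),
    Q q.1 q.2 k x, PRD.all _ (P := fun q : Fin n × Fin n => Q q.1 q.2) fun q _ => hQ q.1 q.2,
    fun k K _ _ _ φ x => ?_⟩
  have h2 : ∀ i j : Fin n, Q i j k x ↔ ∃ G : K[X][X], G ≠ 0 ∧
      ∀ z ∈ Pt X K fun i => φ (x i), G.evalEval (z i) (z j) = 0 := by
    intro i j
    rw [hq i j k K φ x]
    refine exists_congr fun G => and_congr_right fun _ => ?_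
    constructor
    · intro h z hz
      refine h (z i) (z j) ((hw i j K K (RingHom.id K) _).2 ⟨z, ?_, rfl, rfl⟩)
      exact hz
    · intro h s t hst
      obtain ⟨z, hz, h4, h5⟩ := (hw i j K K (RingHom.id K) _).1 hst
      have h6 := h z hz
      have h7 : z i = s := h4
      have h8 : z j = t := h5
      rwa [h7, h8] at h6
  constructor
  · intro h i j hij
    exact (h2 i j).1 (h (i, j) (Finset.mem_filter.2 ⟨Finset.mem_univ _, hij⟩))
  · intro h q hq'
    exact (h2 q.1 q.2).2 (h q.1 q.2 (Finset.mem_filter.1 hq').2)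

end Pool.Agent.CvH
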