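import Pool.Agent.CvH.All
import Pool.Agent.CvH.DmD

/-!
# The number of solutions as a total function

`sys_tot`: the function with the value `SN (m v) (c v)` if `m v` is squarefree and the solution set modulo every prime
divisor of `m v` has dimension at most one, and `0` otherwise, is definable.
-/

set_option autoImplicit false

noncomputable section

namespace Pool.Agent.CvH

open Finset Polynomial Pool.Agent.PRc Pool.Agent.Grz Pool.Agent.CvS

/-- the system as a relation on all fields -/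
private def XT (n d r : ℕ) : FR (Fin n ⊕ (Fin r × (Fin n → Fin (d + 1)))) :=
  fun _ _ x => ∀ l : Fin r, ∑ e : Fin n → Fin (d + 1), x (Sum.inr (l, e)) *
    ∏ i, x (Sum.inl i) ^ (e i : ℕ) = 0

private theorem xt_prd (n d r : ℕ) : PRD (XT n d r) := by
  have h : PRD (fun (K : Type) [Field K] (x : Fin n ⊕ (Fin r × (Fin n → Fin (d + 1))) → K) =>
      ∀ l ∈ (Finset.univ : Finset (Fin r)), ∑ e : Fin n → Fin (d + 1), x (Sum.inr (l, e)) *
        ∏ i, x (Sum.inl i) ^ (e i : ℕ) = 0) := by
    refine PRD.all Finset.univ (P := fun (l : Fin r) (K : Type) [Field K]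
      (x : Fin n ⊕ (Fin r × (Fin n → Fin (d + 1))) → K) =>
      ∑ e : Fin n → Fin (d + 1), x (Sum.inr (l, e)) * ∏ i, x (Sum.inl i) ^ (e i : ℕ) = 0)
      fun l _ => ?_
    refine PRD.eq ?_ PRF.zero
    refine PRF.sum Finset.univ (F := fun (e : Fin n → Fin (d + 1)) (K : Type) [Field K]
      (x : Fin n ⊕ (Fin r × (Fin n → Fin (d + 1))) → K) =>
      x (Sum.inr (l, e)) * ∏ i, x (Sum.inl i) ^ (e i : ℕ)) fun e _ => ?_
    refine PRF.mul (PRF.var _) ?_
    exact PRF.prod Finset.univ (F := fun (i : Fin n) (K : Type) [Field K]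
      (x : Fin n ⊕ (Fin r × (Fin n → Fin (d + 1))) → K) => x (Sum.inl i) ^ (e i : ℕ))
      fun i _ => (PRF.var _).pow _
  refine h.congr fun K _ x => ?_
  unfold XT
  simp only [Finset.mem_univ, forall_true_left]

private theorem sqf_Tot {n : ℕ} {f : (Fin n → ℕ) → ℕ} (hf : DFun n f) :
    Delta0 n (fun v => Squarefree (f v)) := by
  have h1 : Delta0 (n + 1) (fun w => w 0 * w 0 ∣ f (fun i => w i.succ) → w 0 = 1) :=
    (ECD.delta_dvd ((DFun.proj 0).mul (DFun.proj 0)) hf.weak).imp
      (Delta0.eqFun (DFun.proj 0) (DFun.const 1))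
  refine ((Delta0.ltFun (DFun.const 0) hf).and (Delta0.ballFun
    (P := fun x v => x * x ∣ f v → x = 1) hf h1)).of_iff fun v => ?_
  constructor
  · intro h
    exact ⟨Nat.pos_of_ne_zero h.ne_zero, fun x _ hx => Nat.isUnit_iff.1 (h x hx)⟩
  · rintro ⟨h0, h⟩ x hx
    refine Nat.isUnit_iff.2 (h x ?_ hx)
    have h2 : x * x ≤ f v := Nat.le_of_dvd h0 hx
    exact (Nat.le_mul_self x).trans h2

/-- the condition on the dimension is a bounded formula -/
theorem cv_delta {n d r k : ℕ} {p : (Fin k → ℕ) → ℕ}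
    {c : Fin r → (Fin n → Fin (d + 1)) → (Fin k → ℕ) → ℕ} (hp : DFun k p)
    (hc : ∀ l e, DFun k (c l e)) : Delta0 k (fun v => Cv (p v) fun l e => c l e v) := by
  classical
  obtain ⟨Q, hQ, h⟩ := dm1_pr (xt_prd n d r)
  refine (prd_delta' hQ (a := fun i : Fin r × (Fin n → Fin (d + 1)) => c i.1 i.2) hp
    fun i => hc i.1 i.2).of_iff fun v => ?_
  unfold Cv
  refine exists_congr fun hpr => ?_
  haveI := Fact.mk hpr
  have h1 := h (ZMod (p v)) (AlgebraicClosure (ZMod (p v))) (algebraMap _ _)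
    (fun i => ((c i.1 i.2 v : ℕ) : ZMod (p v)))
  refine Iff.symm (h1.trans ?_)
  have h2 : (Pt (XT n d r) (AlgebraicClosure (ZMod (p v))) fun i =>
      algebraMap (ZMod (p v)) (AlgebraicClosure (ZMod (p v))) ((c i.1 i.2 v : ℕ) : ZMod (p v))) =
      SZ (AlgebraicClosure (ZMod (p v))) fun l e => c l e v := by
    ext z
    simp only [map_natCast]
    rfl
  rw [h2]

open scoped Classical in
theorem sys_tot {n d r k : ℕ} {m : (Fin k → ℕ) → ℕ}
    {c : Fin r → (Fin n → Fin (d + 1)) → (Fin k → ℕ) → ℕ} (hm : DFun k m)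
    (hc : ∀ l e, DFun k (c l e)) : DFun k (fun v => if Squarefree (m v) ∧
      (∀ p, p.Prime → p ∣ m v → Cv p fun l e => c l e v) then
        SN (m v) fun l e => c l e v else 0) := by
  obtain ⟨f, hf, h⟩ := sys hm hc
  have h1 : Delta0 (k + 1) (fun w => (w 0).Prime → w 0 ∣ m (fun i => w i.succ) →
      Cv (w 0) fun l e => c l e fun i => w i.succ) :=
    (ECD.delta_prime (DFun.proj 0)).imp ((ECD.delta_dvd (DFun.proj 0) hm.weak).imp
      (cv_delta (DFun.proj 0) fun l e => (hc l e).weak))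
  have h2 : Delta0 k (fun v => Squarefree (m v) ∧
      (∀ p, p.Prime → p ∣ m v → Cv p fun l e => c l e v)) := by
    refine ((sqf_Tot hm).and (Delta0.ballFun (P := fun x v => x.Prime → x ∣ m v →
      Cv x fun l e => c l e v) hm h1)).of_iff fun v => ?_
    refine and_congr_right fun hs => ?_
    constructor
    · intro h3 p _
      exact h3 p
    · intro h3 p hp hd
      exact h3 p (Nat.le_of_dvd (Nat.pos_of_ne_zero hs.ne_zero) hd) hp hd
  have e : (fun v => if Squarefree (m v) ∧ (∀ p, p.Prime → p ∣ m v → Cv p fun l e => c l e v) then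
        SN (m v) fun l e => c l e v else 0) = fun v => if Squarefree (m v) ∧
      (∀ p, p.Prime → p ∣ m v → Cv p fun l e => c l e v) then f v else 0 := by
    funext v
    by_cases h3 : Squarefree (m v) ∧ (∀ p, p.Prime → p ∣ m v → Cv p fun l e => c l e v)
    · rw [if_pos h3, if_pos h3, h v h3.1 h3.2]
    · rw [if_neg h3, if_neg h3]
  rw [e]
  exact DFun.ite h2 hf (DFun.const 0)

end Pool.Agent.CvH
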